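import Pool.Agent.Helper56S.Dense

/-!
# `Σ(2^{ℵ₁})` is not D-separable

In ZFC, the `Σ`-product of `ℵ₁` two-point spaces has a dense hereditarily Lindelöf subspace (an
L-space). All discrete subsets of this subspace are countable, but no countable subset of the
`Σ`-product is dense. Hence the `Σ`-product is not D-separable.
-/

set_option autoImplicit false

open Set Topology Cardinal

universe u

namespace Pool.Agent.Results.MP_339821_gt.SigmaAlephOne

open Pool.Agent.Helper56S

/-- In ZFC, `Σ(2^{ℵ₁})` has a dense hereditarily Lindelöf subspace, and it is not D-separable. -/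
theorem result (I : Type u) (hI : #I = ℵ₁) :
    (∃ D : Set (SigmaCantor I), Dense D ∧ HereditarilyLindelofSpace D) ∧
      ¬ DSeparable (SigmaCantor I) :=
  main I hI

end Pool.Agent.Results.MP_339821_gt.SigmaAlephOne
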